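import Pool.Agent.W4h4.TD.Lim2
import Pool.Agent.W4h4.TD.B
import Pool.Agent.W4h4.TD.GA
import Pool.Agent.W4h4.TD.GD
import Pool.Agent.W4h4.TD.GC
import Pool.Agent.W4h4.TD.StarH
import Pool.Agent.W4h4.TD.Tri
import Pool.Agent.W4h4.TD.BigH
import Pool.Agent.W4h4.TD.Cst

/-!
# MP_1ce445_co: the asymptotic value of `P(n,k)` for every fixed `k ≥ 3`

The definitions (`P`, `IsFactorization`, `gammaT`, `IsTDS`) are in `Pool/Agent/W4h4/TD/Defs.lean`.
-/

set_option autoImplicit false

open Filter Topology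

namespace Pool.Agent.Results.MP_1ce445_co.FixedNumberOfFactors

open Pool.Agent.W4h4.TD

/-- **For every fixed `k ≥ 3`, `P(n,k) / n ^ k` tends to `1 / 27` as `n` tends to infinity.** -/
theorem result (k : ℕ) (hk : 3 ≤ k) :
    Tendsto (fun n : ℕ => (P n k : ℝ) / (n : ℝ) ^ k) atTop (𝓝 (1 / 27)) := by
  have h := limk ga gd bb gc k (by omega)
  rwa [cst_eq starH tri bigH k hk] at h

end Pool.Agent.Results.MP_1ce445_co.FixedNumberOfFactors
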