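import Mathlib

/-!
# MP_1ce445_co: the product of the total domination numbers of a factorization of `K_n`

For every `k`-factorization of `K_n` (all factors without isolated vertices) we show
`∑ γ_t(G_j) + min γ_t(G_j) ≤ (k-1) n + 2k + 2` and deduce
`P(n,k) ≤ (1/2) (((k-1) n + 2k + 2)/k)^k`.
For fixed `k` and large `n` this is half of the known bound `((1-1/k)(n+1))^k`.
-/

set_option autoImplicit false

namespace Pool.Agent.Results.MP_1ce445_co.HalvedProductBound

/-- `S` is a total dominating set of `G`: every vertex has a neighbour in `S`. -/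
def IsTDS {n : ℕ} (G : SimpleGraph (Fin n)) (S : Finset (Fin n)) : Prop :=
  ∀ v, ∃ w ∈ S, G.Adj v w

/-- The total domination number. -/
noncomputable def gammaT {n : ℕ} (G : SimpleGraph (Fin n)) : ℕ :=
  sInf {m | ∃ S : Finset (Fin n), S.card = m ∧ IsTDS G S}

/-- `k`-factorizations of `K_n` into graphs of minimum degree at least one. -/
structure IsFactorization {n k : ℕ} (G : Fin k → SimpleGraph (Fin n)) : Prop where
  disj : ∀ i j, i ≠ j → ∀ u v, (G i).Adj u v → ¬ (G j).Adj u v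
  union : ∀ u v, u ≠ v → ∃ j, (G j).Adj u v
  mindeg : ∀ j v, ∃ w, (G j).Adj v w

/-- The maximum `P(n,k)` of the product of the total domination numbers. -/
noncomputable def P (n k : ℕ) : ℕ :=
  sSup {p | ∃ G : Fin k → SimpleGraph (Fin n), IsFactorization G ∧ p = ∏ j, gammaT (G j)}

open Finset

theorem gamma_add_le {n : ℕ} (G : SimpleGraph (Fin n)) (hG : ∀ v, ∃ w, G.Adj v w)
    (A N : Finset (Fin n)) (hN : ∀ v, v ∈ N → ∃ a ∈ A, G.Adj a v) :
    gammaT G + N.card ≤ A.card + n := by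
  classical
  choose f hf using hG
  have h1 : IsTDS G (A ∪ (univ \ N).image f) := by
    intro v
    by_cases hv : v ∈ N
    · obtain ⟨a, ha, hav⟩ := hN v hv
      exact ⟨a, mem_union_left _ ha, hav.symm⟩
    · exact ⟨f v, mem_union_right _ (mem_image_of_mem _ (by simp [hv])), hf v⟩
  have h2 : gammaT G ≤ (A ∪ (univ \ N).image f).card := Nat.sInf_le ⟨_, rfl, h1⟩
  have h3 : (A ∪ (univ \ N).image f).card ≤ A.card + (univ \ N).card :=
    (card_union_le _ _).trans (Nat.add_le_add_left card_image_le _)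
  have h4 : (univ \ N).card + N.card = n := by
    rw [card_sdiff_add_card_eq_card (subset_univ _), card_univ, Fintype.card_fin]
  omega

/-- indicator of adjacency -/
noncomputable def ad {n k : ℕ} (G : Fin k → SimpleGraph (Fin n)) (j : Fin k) (u w : Fin n) : ℤ := by
  classical
  exact if (G j).Adj u w then 1 else 0

theorem ad_one {n k : ℕ} {G : Fin k → SimpleGraph (Fin n)} {j : Fin k} {u w : Fin n}
    (h : (G j).Adj u w) : ad G j u w = 1 := by
  unfold ad
  rw [if_pos h]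

theorem ad_zero {n k : ℕ} {G : Fin k → SimpleGraph (Fin n)} {j : Fin k} {u w : Fin n}
    (h : ¬ (G j).Adj u w) : ad G j u w = 0 := by
  unfold ad
  rw [if_neg h]

theorem ad_symm {n k : ℕ} (G : Fin k → SimpleGraph (Fin n)) (j : Fin k) (u w : Fin n) :
    ad G j u w = ad G j w u := by
  by_cases h : (G j).Adj u w
  · rw [ad_one h, ad_one h.symm]
  · rw [ad_zero h, ad_zero fun h' => h h'.symm]

theorem sum_color {n k : ℕ} {G : Fin k → SimpleGraph (Fin n)} (hG : IsFactorization G)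
    (u w : Fin n) : ∑ j, ad G j u w = if w = u then 0 else 1 := by
  by_cases h : w = u
  · rw [if_pos h]
    subst h
    exact sum_eq_zero fun j _ => ad_zero ((G j).loopless.irrefl w)
  · rw [if_neg h]
    obtain ⟨j, hj⟩ := hG.union u w (Ne.symm h)
    rw [sum_eq_single j]
    · exact ad_one hj
    · intro i _ hij
      exact ad_zero (hG.disj j i (Ne.symm hij) u w hj)
    · intro h'
      exact absurd (mem_univ _) h'

theorem sum_deg {n k : ℕ} {G : Fin k → SimpleGraph (Fin n)} (hG : IsFactorization G)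
    (u : Fin n) : ∑ j, ∑ w, ad G j u w = n - 1 := by
  rw [sum_comm]
  simp_rw [sum_color hG]
  have h : ∀ w : Fin n, (if w = u then (0 : ℤ) else 1) = 1 - if w = u then 1 else 0 := by
    intro w
    split_ifs <;> simp
  simp_rw [h]
  rw [sum_sub_distrib, sum_ite_eq' univ u]
  simp

theorem deg_le {n k : ℕ} {G : Fin k → SimpleGraph (Fin n)} (hG : IsFactorization G)
    (j : Fin k) (u : Fin n) : (gammaT (G j) : ℤ) + ∑ w, ad G j u w ≤ n + 1 := by
  classical
  have h1 := gamma_add_le (G j) (hG.mindeg j) {u} (univ.filter fun w => (G j).Adj u w)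
    (fun v hv => ⟨u, mem_singleton_self u, (mem_filter.mp hv).2⟩)
  have h2 : ∑ w, ad G j u w = ((univ.filter fun w => (G j).Adj u w).card : ℤ) := by
    rw [card_filter]
    push_cast
    apply sum_congr rfl
    intro w _
    by_cases h : (G j).Adj u w
    · rw [ad_one h, if_pos h]
    · rw [ad_zero h, if_neg h]
  rw [h2]
  rw [card_singleton] at h1
  have h3 : ((gammaT (G j) + (univ.filter fun w => (G j).Adj u w).card : ℕ) : ℤ) ≤
      ((1 + n : ℕ) : ℤ) := by exact_mod_cast h1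
  push_cast at h3 ⊢
  linarith

theorem pair_le {n k : ℕ} {G : Fin k → SimpleGraph (Fin n)} (hG : IsFactorization G)
    (j : Fin k) (u v : Fin n) :
    (gammaT (G j) : ℤ) + ∑ w, (ad G j u w + ad G j v w - ad G j u w * ad G j v w) ≤ n + 2 := by
  classical
  have h1 := gamma_add_le (G j) (hG.mindeg j) {u, v}
    (univ.filter fun w => (G j).Adj u w ∨ (G j).Adj v w) (fun x hx => by
      rcases (mem_filter.mp hx).2 with h | h
      · exact ⟨u, by simp, h⟩
      · exact ⟨v, by simp, h⟩)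
  have h2 : ∑ w, (ad G j u w + ad G j v w - ad G j u w * ad G j v w) =
      ((univ.filter fun w => (G j).Adj u w ∨ (G j).Adj v w).card : ℤ) := by
    rw [card_filter]
    push_cast
    apply sum_congr rfl
    intro w _
    by_cases h : (G j).Adj u w <;> by_cases h' : (G j).Adj v w
    · rw [ad_one h, ad_one h', if_pos (Or.inl h)]; norm_num
    · rw [ad_one h, ad_zero h', if_pos (Or.inl h)]; norm_num
    · rw [ad_zero h, ad_one h', if_pos (Or.inr h')]; norm_num
    · rw [ad_zero h, ad_zero h', if_neg (by tauto)]; norm_num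
  rw [h2]
  have h4 : ({u, v} : Finset (Fin n)).card ≤ 2 := card_le_two
  have h3 : ((gammaT (G j) + (univ.filter fun w => (G j).Adj u w ∨ (G j).Adj v w).card : ℕ) : ℤ) ≤
      ((2 + n : ℕ) : ℤ) := by exact_mod_cast h1.trans (Nat.add_le_add_right h4 n)
  push_cast at h3 ⊢
  linarith

/-- **The sum inequality**: `∑ γ_t(G_j) + min γ_t(G_j) ≤ (k-1) n + 2k + 2`. -/
theorem key {n k : ℕ} (hn : 2 ≤ n) {G : Fin k → SimpleGraph (Fin n)} (hG : IsFactorization G)
    (m : ℕ) (hm : ∀ j, m ≤ gammaT (G j)) :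
    (∑ j, (gammaT (G j) : ℤ)) + m + n ≤ k * (n + 2) + 2 := by
  classical
  set u0 : Fin n := ⟨0, by omega⟩ with hu0
  set E : Finset (Fin n) := univ.erase u0 with hE
  have hEc : (E.card : ℤ) = n - 1 := by
    rw [hE, card_erase_of_mem (mem_univ _), card_univ, Fintype.card_fin]
    push_cast [show 1 ≤ n by omega]
    ring
  -- the fourth sum
  have hT : ∑ v ∈ E, ∑ j, ∑ w, ad G j u0 w * ad G j v w ≤ (n - 1) * (n - m) := by
    have h1 : ∑ v ∈ E, ∑ j, ∑ w, ad G j u0 w * ad G j v w =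
        ∑ j, ∑ w, ad G j u0 w * ∑ v ∈ E, ad G j v w := by
      rw [sum_comm]
      apply sum_congr rfl
      intro j _
      rw [sum_comm]
      apply sum_congr rfl
      intro w _
      rw [mul_sum]
    have h2 : ∀ j w, ad G j u0 w * ∑ v ∈ E, ad G j v w ≤ ad G j u0 w * (n - m) := by
      intro j w
      by_cases h : (G j).Adj u0 w
      · rw [ad_one h, one_mul, one_mul]
        have h3 : ∑ v ∈ E, ad G j v w + ad G j u0 w = ∑ v, ad G j v w := by
          rw [hE, sum_erase_add _ _ (mem_univ _)]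
        have h4 : ∑ v, ad G j v w = ∑ v, ad G j w v :=
          sum_congr rfl fun v _ => ad_symm G j v w
        have h5 := deg_le hG j w
        have h6 : (m : ℤ) ≤ gammaT (G j) := by exact_mod_cast hm j
        rw [ad_one h] at h3
        linarith
      · rw [ad_zero h, zero_mul, zero_mul]
    rw [h1]
    calc ∑ j, ∑ w, ad G j u0 w * ∑ v ∈ E, ad G j v w
        ≤ ∑ j, ∑ w, ad G j u0 w * (n - m) :=
          sum_le_sum fun j _ => sum_le_sum fun w _ => h2 j w
      _ = (∑ j, ∑ w, ad G j u0 w) * (n - m) := by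
          rw [sum_mul]
          exact sum_congr rfl fun j _ => (sum_mul _ _ _).symm
      _ = (n - 1) * (n - m) := by rw [sum_deg hG]
  have hsum : ∑ v ∈ E, ∑ j, ((gammaT (G j) : ℤ) +
      ∑ w, (ad G j u0 w + ad G j v w - ad G j u0 w * ad G j v w)) ≤
      ∑ v ∈ E, ∑ j : Fin k, ((n : ℤ) + 2) :=
    sum_le_sum fun v _ => sum_le_sum fun j _ => pair_le hG j u0 v
  have hL : ∑ v ∈ E, ∑ j, ((gammaT (G j) : ℤ) +
      ∑ w, (ad G j u0 w + ad G j v w - ad G j u0 w * ad G j v w)) =
      (n - 1) * (∑ j, (gammaT (G j) : ℤ)) + (n - 1) * (n - 1) + (n - 1) * (n - 1) -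
        ∑ v ∈ E, ∑ j, ∑ w, ad G j u0 w * ad G j v w := by
    have h1 : ∀ v, ∑ j, ((gammaT (G j) : ℤ) +
        ∑ w, (ad G j u0 w + ad G j v w - ad G j u0 w * ad G j v w)) =
        (∑ j, (gammaT (G j) : ℤ)) + (n - 1) + (n - 1) -
          ∑ j, ∑ w, ad G j u0 w * ad G j v w := by
      intro v
      have s1 := sum_deg hG u0
      have s2 := sum_deg hG v
      simp only [sum_add_distrib, sum_sub_distrib]
      linarith
    simp_rw [h1]
    rw [sum_sub_distrib, sum_const, nsmul_eq_mul, hEc]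
    ring
  have hR : ∑ v ∈ E, ∑ j : Fin k, ((n : ℤ) + 2) = (n - 1) * (k * (n + 2)) := by
    rw [sum_const, sum_const, nsmul_eq_mul, nsmul_eq_mul, hEc, card_univ, Fintype.card_fin]
  rw [hL, hR] at hsum
  have hpos : (0 : ℤ) < n - 1 := by
    have : (2 : ℤ) ≤ n := by exact_mod_cast hn
    linarith
  have hfin : ((n : ℤ) - 1) * ((∑ j, (gammaT (G j) : ℤ)) + m + n - 2) ≤
      (n - 1) * (k * (n + 2)) := by nlinarith [hsum, hT]
  have := le_of_mul_le_mul_left hfin hpos
  linarith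

theorem amgm {k : ℕ} (hk : 0 < k) (z : Fin k → ℝ) (hz : ∀ i, 0 ≤ z i) :
    ∏ i, z i ≤ ((∑ i, z i) / k) ^ k := by
  have hk0 : (k : ℝ) ≠ 0 := by exact_mod_cast hk.ne'
  have h1 := Real.geom_mean_le_arith_mean_weighted (univ : Finset (Fin k)) (fun _ => (k : ℝ)⁻¹) z
    (fun i _ => by positivity) (by
      rw [sum_const, card_univ, Fintype.card_fin, nsmul_eq_mul]
      exact mul_inv_cancel₀ hk0) (fun i _ => hz i)
  have h2 : ∑ i, (k : ℝ)⁻¹ * z i = (∑ i, z i) / k := by
    rw [← mul_sum, div_eq_inv_mul]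
  rw [h2] at h1
  have h3 : (∏ i, z i ^ ((k : ℝ)⁻¹)) ^ k = ∏ i, z i := by
    rw [← prod_pow]
    apply prod_congr rfl
    intro i _
    exact Real.rpow_inv_natCast_pow (hz i) hk.ne'
  have h4 : (0 : ℝ) ≤ ∏ i, z i ^ ((k : ℝ)⁻¹) :=
    prod_nonneg fun i _ => Real.rpow_nonneg (hz i) _
  calc ∏ i, z i = (∏ i, z i ^ ((k : ℝ)⁻¹)) ^ k := h3.symm
    _ ≤ ((∑ i, z i) / k) ^ k := pow_le_pow_left₀ h4 h1 k

/-- The product bound for one factorization. -/
theorem prod_le {n k : ℕ} (hn : 2 ≤ n) (hk : 1 ≤ k) {G : Fin k → SimpleGraph (Fin n)}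
    (hG : IsFactorization G) :
    ((∏ j, gammaT (G j) : ℕ) : ℝ) ≤
      1 / 2 * ((((k : ℝ) - 1) * n + 2 * k + 2) / k) ^ k := by
  classical
  have : Nonempty (Fin k) := ⟨⟨0, hk⟩⟩
  obtain ⟨j0, hj0⟩ := Finite.exists_min fun j => gammaT (G j)
  have h1 := key hn hG (gammaT (G j0)) hj0
  set z : Fin k → ℝ := fun j => (gammaT (G j) : ℝ) * (if j = j0 then 2 else 1) with hz
  have hz0 : ∀ j, 0 ≤ z j := by
    intro j
    rw [hz]
    dsimp only
    split_ifs <;> positivity
  have h2 := amgm (by omega : 0 < k) z hz0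
  have h3 : ∏ j, z j = 2 * ((∏ j, gammaT (G j) : ℕ) : ℝ) := by
    rw [hz]
    dsimp only
    rw [prod_mul_distrib, prod_ite_eq' univ j0]
    simp only [mem_univ, if_true]
    push_cast
    ring
  have h4 : ∑ j, z j = (∑ j, (gammaT (G j) : ℝ)) + gammaT (G j0) := by
    have h5 : ∀ j, z j = (gammaT (G j) : ℝ) + if j = j0 then (gammaT (G j) : ℝ) else 0 := by
      intro j
      rw [hz]
      dsimp only
      split_ifs <;> ring
    simp_rw [h5]
    rw [sum_add_distrib, sum_ite_eq' univ j0]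
    simp
  have h6 : (∑ j, (gammaT (G j) : ℝ)) + gammaT (G j0) ≤ ((k : ℝ) - 1) * n + 2 * k + 2 := by
    have h7 : (((∑ j, (gammaT (G j) : ℤ)) + gammaT (G j0) + n : ℤ) : ℝ) ≤
        ((k * (n + 2) + 2 : ℤ) : ℝ) := by exact_mod_cast h1
    push_cast at h7
    linarith
  rw [h3, h4] at h2
  have hk0 : (0 : ℝ) < k := by exact_mod_cast (by omega : 0 < k)
  have h8 : ((∑ j, (gammaT (G j) : ℝ)) + gammaT (G j0)) / k ≤
      (((k : ℝ) - 1) * n + 2 * k + 2) / k := div_le_div_of_nonneg_right h6 hk0.le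
  have h9 : 0 ≤ ((∑ j, (gammaT (G j) : ℝ)) + gammaT (G j0)) / k := by positivity
  have h10 := pow_le_pow_left₀ h9 h8 k
  linarith

/-- **`P(n,k) ≤ (1/2) (((k-1) n + 2k + 2)/k)^k`.** -/
theorem result (n k : ℕ) (hn : 2 ≤ n) (hk : 1 ≤ k) :
    (P n k : ℝ) ≤ 1 / 2 * ((((k : ℝ) - 1) * n + 2 * k + 2) / k) ^ k := by
  set s : Set ℕ :=
    {p | ∃ G : Fin k → SimpleGraph (Fin n), IsFactorization G ∧ p = ∏ j, gammaT (G j)} with hs
  have hb : ∀ p ∈ s, (p : ℝ) ≤ 1 / 2 * ((((k : ℝ) - 1) * n + 2 * k + 2) / k) ^ k := by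
    rintro p ⟨G, hG, rfl⟩
    exact prod_le hn hk hG
  by_cases hne : s.Nonempty
  · have hbd : BddAbove s := by
      refine ⟨⌈1 / 2 * ((((k : ℝ) - 1) * n + 2 * k + 2) / k) ^ k⌉₊, fun p hp => ?_⟩
      have := (hb p hp).trans (Nat.le_ceil _)
      exact_mod_cast this
    exact hb _ (Nat.sSup_mem hne hbd)
  · have h0 : P n k = 0 := by
      unfold P
      rw [← hs, Set.not_nonempty_iff_eq_empty.mp hne]
      simp
    rw [h0]
    have h1 : (1 : ℝ) ≤ k := by exact_mod_cast hk
    have h2 : (0 : ℝ) ≤ ((k : ℝ) - 1) * n := mul_nonneg (by linarith) (by positivity)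
    have h3 : (0 : ℝ) ≤ (((k : ℝ) - 1) * n + 2 * k + 2) / k := by positivity
    push_cast
    positivity

end Pool.Agent.Results.MP_1ce445_co.HalvedProductBound
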