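import Pool.Agent.Results.MP_1ce445_co.HalvedProductBound

/-!
# MP_1ce445_co: the known upper bound for `P(n,k)` is never attained
-/

set_option autoImplicit false

namespace Pool.Agent.Results.MP_1ce445_co.NeverAttained

open Pool.Agent.Results.MP_1ce445_co.HalvedProductBound
open Finset

/-- the neighbours of `A` -/
noncomputable def nb {n : ℕ} (H : SimpleGraph (Fin n)) (A : Finset (Fin n)) : Finset (Fin n) := by
  classical
  exact univ.filter fun v => ∃ a ∈ A, H.Adj a v

theorem mem_nb {n : ℕ} {H : SimpleGraph (Fin n)} {A : Finset (Fin n)} {v : Fin n} :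
    v ∈ nb H A ↔ ∃ a ∈ A, H.Adj a v := by
  classical
  unfold nb
  rw [mem_filter]
  exact ⟨fun h => h.2, fun h => ⟨mem_univ _, h⟩⟩

/-- the degree -/
noncomputable def deg {n : ℕ} (H : SimpleGraph (Fin n)) (v : Fin n) : ℤ := by
  classical
  exact ((univ.filter fun w => H.Adj v w).card : ℤ)

theorem card_nb_single {n : ℕ} (H : SimpleGraph (Fin n)) (u : Fin n) :
    ((nb H {u}).card : ℤ) = deg H u := by
  classical
  unfold deg
  congr 2
  ext v
  rw [mem_nb]
  simp

/-- the number of neighbours of `v` outside `N` -/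
noncomputable def out {n : ℕ} (H : SimpleGraph (Fin n)) (N : Finset (Fin n)) (v : Fin n) : ℤ := by
  classical
  exact (((univ \ N).filter fun w => H.Adj v w).card : ℤ)

theorem Kc {n : ℕ} (H : SimpleGraph (Fin n)) (A : Finset (Fin n)) (c : ℤ)
    (hc : ∀ v, out H (nb H A) v ≤ c) :
    ∑ w ∈ univ \ nb H A, deg H w ≤ (n - A.card) * c := by
  classical
  set N := nb H A with hN
  have h1 : ∑ w ∈ univ \ N, deg H w =
      ∑ v, (((univ \ N).filter fun w => H.Adj v w).card : ℤ) := by
    have h3 : ∀ v : Fin n, (((univ \ N).filter fun w => H.Adj v w).card : ℤ) =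
        ∑ w ∈ univ \ N, if H.Adj v w then (1 : ℤ) else 0 := by
      intro a
      rw [card_filter]
      push_cast
      rfl
    simp_rw [h3]
    rw [sum_comm]
    apply sum_congr rfl
    intro w _
    unfold deg
    rw [card_filter]
    push_cast
    apply sum_congr rfl
    intro v _
    by_cases h : H.Adj w v
    · rw [if_pos h, if_pos h.symm]
    · rw [if_neg h, if_neg fun h' => h h'.symm]
  rw [h1, ← sum_sdiff (subset_univ A)]
  have h2 : ∑ v ∈ A, (((univ \ N).filter fun w => H.Adj v w).card : ℤ) = 0 := by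
    apply sum_eq_zero
    intro v hv
    have : (univ \ N).filter (fun w => H.Adj v w) = ∅ := by
      rw [filter_eq_empty_iff]
      intro w hw hvw
      exact (mem_sdiff.mp hw).2 (mem_nb.mpr ⟨v, hv, hvw⟩)
    rw [this]
    simp
  have h9 : ((univ \ A).card : ℤ) = n - A.card := by
    have := card_sdiff_add_card_eq_card (subset_univ A)
    rw [card_univ, Fintype.card_fin] at this
    have h10 : (((univ \ A).card + A.card : ℕ) : ℤ) = n := by exact_mod_cast this
    push_cast at h10
    linarith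
  rw [h2, add_zero]
  calc ∑ v ∈ univ \ A, (((univ \ N).filter fun w => H.Adj v w).card : ℤ)
      ≤ ∑ v ∈ univ \ A, c := sum_le_sum fun v _ => by
        have := hc v
        unfold out at this
        exact this
    _ = (n - A.card) * c := by rw [sum_const, nsmul_eq_mul, h9]

theorem out_eq {n : ℕ} (H : SimpleGraph (Fin n)) (A : Finset (Fin n)) (v : Fin n) :
    ((nb H (insert v A)).card : ℤ) = (nb H A).card + out H (nb H A) v := by
  classical
  have h1 : nb H (insert v A) = nb H A ∪ (univ \ nb H A).filter fun w => H.Adj v w := by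
    ext w
    rw [mem_nb, mem_union, mem_nb, mem_filter, mem_sdiff, mem_nb]
    constructor
    · rintro ⟨a, ha, haw⟩
      by_cases h : ∃ a ∈ A, H.Adj a w
      · exact Or.inl h
      · rcases mem_insert.mp ha with rfl | ha
        · exact Or.inr ⟨⟨mem_univ _, h⟩, haw⟩
        · exact absurd ⟨a, ha, haw⟩ h
    · rintro (⟨a, ha, haw⟩ | ⟨_, h⟩)
      · exact ⟨a, mem_insert_of_mem ha, haw⟩
      · exact ⟨v, mem_insert_self _ _, h⟩
  have h2 : (nb H A ∪ (univ \ nb H A).filter fun w => H.Adj v w).card =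
      (nb H A).card + ((univ \ nb H A).filter fun w => H.Adj v w).card := by
    apply card_union_of_disjoint
    rw [disjoint_left]
    intro w hw hw'
    exact (mem_sdiff.mp (mem_filter.mp hw').1).2 hw
  unfold out
  rw [h1, h2]
  push_cast
  rfl

theorem nb_le {n : ℕ} (H : SimpleGraph (Fin n)) (hH : ∀ v, ∃ w, H.Adj v w)
    (A : Finset (Fin n)) : (gammaT H : ℤ) + (nb H A).card ≤ A.card + n := by
  have := gamma_add_le H hH A (nb H A) (fun v hv => mem_nb.mp hv)
  exact_mod_cast this

theorem K {n : ℕ} (H : SimpleGraph (Fin n)) (hH : ∀ v, ∃ w, H.Adj v w) (A : Finset (Fin n)) :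
    ∑ w ∈ univ \ nb H A, deg H w ≤
      (n - A.card) * (A.card + 1 + n - gammaT H - (nb H A).card) := by
  classical
  apply Kc
  intro v
  have h1 := out_eq H A v
  have h2 := nb_le H hH (insert v A)
  have h3 : ((insert v A).card : ℤ) ≤ A.card + 1 := by exact_mod_cast card_insert_le v A
  linarith

theorem deg_eq {n k : ℕ} (G : Fin k → SimpleGraph (Fin n)) (j : Fin k) (v : Fin n) :
    deg (G j) v = ∑ w, ad G j v w := by
  classical
  unfold deg
  rw [card_filter]
  push_cast
  apply sum_congr rfl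
  intro w _
  by_cases h : (G j).Adj v w
  · rw [ad_one h, if_pos h]
  · rw [ad_zero h, if_neg h]

theorem one_le_deg {n : ℕ} (H : SimpleGraph (Fin n)) (hH : ∀ v, ∃ w, H.Adj v w) (v : Fin n) :
    1 ≤ deg H v := by
  classical
  obtain ⟨w, hw⟩ := hH v
  unfold deg
  have : 0 < (univ.filter fun w => H.Adj v w).card :=
    card_pos.mpr ⟨w, mem_filter.mpr ⟨mem_univ _, hw⟩⟩
  exact_mod_cast this

/-- `K` for one vertex: the degrees outside the neighbourhood of `u`. -/
theorem K1 {n : ℕ} (H : SimpleGraph (Fin n)) (hH : ∀ v, ∃ w, H.Adj v w) (u : Fin n) :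
    ∑ w ∈ univ \ nb H {u}, deg H w ≤ (n - 1) * (2 + n - gammaT H - deg H u) := by
  have h := K H hH {u}
  rw [card_nb_single] at h
  rw [card_singleton] at h
  push_cast at h
  linarith

theorem card_compl {n : ℕ} (N : Finset (Fin n)) : ((univ \ N).card : ℤ) = n - N.card := by
  have := card_sdiff_add_card_eq_card (subset_univ N)
  rw [card_univ, Fintype.card_fin] at this
  have h10 : (((univ \ N).card + N.card : ℕ) : ℤ) = n := by exact_mod_cast this
  push_cast at h10
  linarith

theorem sum_deg' {n k : ℕ} {G : Fin k → SimpleGraph (Fin n)} (hG : IsFactorization G)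
    (v : Fin n) : ∑ j, deg (G j) v = n - 1 := by
  simp_rw [deg_eq]
  exact sum_deg hG v

theorem deg_le' {n k : ℕ} {G : Fin k → SimpleGraph (Fin n)} (hG : IsFactorization G)
    (j : Fin k) (u : Fin n) : deg (G j) u ≤ n + 1 - gammaT (G j) := by
  have h := deg_le hG j u
  rw [deg_eq]
  linarith

/-- The sum over all degrees of a factor, if some vertex has degree `t = n + 1 - γ`. -/
theorem sum_le_full {n k : ℕ} {G : Fin k → SimpleGraph (Fin n)} (hG : IsFactorization G)
    (j : Fin k) (u : Fin n) (hu : deg (G j) u = n + 1 - gammaT (G j)) (b : ℤ)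
    (hb : ∀ v, deg (G j) v ≤ b) :
    ∑ v, deg (G j) v ≤ (n + 1 - gammaT (G j)) * b + (n - 1) := by
  have h1 := K1 (G j) (hG.mindeg j) u
  rw [← sum_sdiff (subset_univ (nb (G j) {u}))]
  have h2 : ∑ v ∈ nb (G j) {u}, deg (G j) v ≤ ((nb (G j) {u}).card : ℤ) * b := by
    calc ∑ v ∈ nb (G j) {u}, deg (G j) v ≤ ∑ v ∈ nb (G j) {u}, b := sum_le_sum fun v _ => hb v
      _ = _ := by rw [sum_const, nsmul_eq_mul]
  rw [card_nb_single, hu] at h2
  rw [hu] at h1
  have h3 : ((n : ℤ) - 1) * (2 + n - gammaT (G j) - (n + 1 - gammaT (G j))) = n - 1 := by ring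
  rw [h3] at h1
  linarith

/-- Equality with all numbers equal is impossible. -/
theorem no_equal {n k : ℕ} (hn : 7 ≤ n) (hk : 3 ≤ k) (hkn : k + 2 ≤ n)
    {G : Fin k → SimpleGraph (Fin n)} (hG : IsFactorization G) (t : ℤ)
    (ht : ∀ j, (n : ℤ) + 1 - gammaT (G j) = t) (hkt : (k : ℤ) * t = n + 1) : False := by
  have hn' : (7 : ℤ) ≤ n := by exact_mod_cast hn
  have hk' : (3 : ℤ) ≤ k := by exact_mod_cast hk
  have hkn' : (k : ℤ) + 2 ≤ n := by exact_mod_cast hkn
  have ht2 : 2 ≤ t := by
    by_contra h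
    push Not at h
    have : (k : ℤ) * t ≤ k * 1 := mul_le_mul_of_nonneg_left (by linarith) (by linarith)
    linarith
  have hM : ∀ j, ∑ v, deg (G j) v ≤ max (t ^ 2 + (n - 1)) (n * (t - 1)) := by
    intro j
    by_cases h : ∃ u, deg (G j) u = t
    · obtain ⟨u, hu⟩ := h
      have h1 := sum_le_full hG j u (by rw [ht, hu]) t (fun v => by
        have := deg_le' hG j v
        rwa [ht] at this)
      rw [ht] at h1
      exact le_max_of_le_left (by linarith)
    · push Not at h
      apply le_max_of_le_right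
      have h1 : ∀ v, deg (G j) v ≤ t - 1 := by
        intro v
        have h2 := deg_le' hG j v
        rw [ht] at h2
        have h3 := h v
        omega
      calc ∑ v, deg (G j) v ≤ ∑ _v : Fin n, (t - 1) := sum_le_sum fun v _ => h1 v
        _ = n * (t - 1) := by rw [sum_const, card_univ, Fintype.card_fin, nsmul_eq_mul]
  have htot : ∑ j, ∑ v, deg (G j) v = n * (n - 1) := by
    rw [sum_comm]
    simp_rw [sum_deg' hG]
    rw [sum_const, card_univ, Fintype.card_fin, nsmul_eq_mul]
  have h5 : (n : ℤ) * (n - 1) ≤ k * max (t ^ 2 + (n - 1)) (n * (t - 1)) := by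
    rw [← htot]
    calc ∑ j, ∑ v, deg (G j) v ≤ ∑ _j : Fin k, max (t ^ 2 + ((n : ℤ) - 1)) (n * (t - 1)) :=
          sum_le_sum fun j _ => hM j
      _ = _ := by rw [sum_const, card_univ, Fintype.card_fin, nsmul_eq_mul]
  rcases le_total (t ^ 2 + ((n : ℤ) - 1)) (n * (t - 1)) with h | h
  · rw [max_eq_right h] at h5
    have h6 : (k : ℤ) * (n * (t - 1)) = n * (n + 1 - k) := by
      rw [← hkt]; ring
    rw [h6] at h5
    have h7 := le_of_mul_le_mul_left h5 (by linarith)
    linarith
  · rw [max_eq_left h] at h5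
    have hn1 : (n : ℤ) = k * t - 1 := by linarith
    rw [hn1] at h5 hn'
    rcases (show t = 2 ∨ 3 ≤ t by omega) with h2 | h3
    · subst h2
      have hk4 : (4 : ℤ) ≤ k := by linarith
      nlinarith [mul_nonneg (show (0 : ℤ) ≤ k - 4 by linarith) (show (0 : ℤ) ≤ k by linarith)]
    · have e1 : (0 : ℤ) ≤ (k - 3) * (t - 1) := mul_nonneg (by linarith) (by linarith)
      have e2 : (k : ℤ) * (t - 1) - 1 ≥ 3 * t - 4 := by nlinarith
      have e3 : (0 : ℤ) < k * t - 2 := by nlinarith
      have e4 : ((k : ℤ) * t - 2) * (k * (t - 1) - 1) ≥ (k * t - 2) * (3 * t - 4) :=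
        mul_le_mul_of_nonneg_left e2 e3.le
      have e5 : (k : ℤ) * t * (t - 2) ≥ 3 * t * (t - 2) := by
        have : (0 : ℤ) ≤ (k - 3) * (t * (t - 2)) :=
          mul_nonneg (by linarith) (mul_nonneg (by linarith) (by linarith))
        nlinarith
      have e6 : (0 : ℤ) ≤ t * (t - 3) := mul_nonneg (by linarith) (by linarith)
      nlinarith

theorem even_sum {n : ℕ} (H : SimpleGraph (Fin n)) : Even (∑ v, deg H v) := by
  classical
  have h1 : ∀ v, deg H v = (H.degree v : ℤ) := by
    intro v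
    unfold deg
    rw [← SimpleGraph.card_neighborFinset_eq_degree, SimpleGraph.neighborFinset_eq_filter]
  simp_rw [h1]
  have h2 := H.sum_degrees_eq_twice_card_edges
  have h3 : ((∑ v, H.degree v : ℕ) : ℤ) = ((2 * H.edgeFinset.card : ℕ) : ℤ) := by rw [h2]
  push_cast at h3
  rw [h3]
  exact even_two_mul _

theorem sum_const_compl {n : ℕ} (H : SimpleGraph (Fin n)) (N : Finset (Fin n)) (b : ℤ)
    (hb : ∀ v, b ≤ deg H v) : ((n : ℤ) - N.card) * b ≤ ∑ w ∈ univ \ N, deg H w := by
  rw [← card_compl N]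
  calc ((univ \ N).card : ℤ) * b = ∑ w ∈ univ \ N, b := by rw [sum_const, nsmul_eq_mul]
    _ ≤ _ := sum_le_sum fun v _ => hb v

/-- A 2-regular graph on at least 7 vertices has total domination number different from `n - 2`. -/
theorem two_regular {n : ℕ} (hn : 7 ≤ n) (H : SimpleGraph (Fin n)) (hH : ∀ v, ∃ w, H.Adj v w)
    (h2 : ∀ v, deg H v = 2) (hγ : (gammaT H : ℤ) = n - 2) : False := by
  have hn' : (7 : ℤ) ≤ n := by exact_mod_cast hn
  set u : Fin n := ⟨0, by omega⟩
  have hex : ∃ v, 2 ≤ out H (nb H {u}) v := by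
    by_contra hne
    push Not at hne
    have h3 := Kc H {u} 1 (fun v => by have := hne v; omega)
    have h4 := sum_const_compl H (nb H {u}) 2 (fun v => (h2 v).ge)
    rw [card_nb_single, h2] at h4
    rw [card_singleton] at h3
    push_cast at h3
    linarith
  obtain ⟨v, hv⟩ := hex
  have h3 := out_eq H {u} v
  rw [card_nb_single, h2] at h3
  set A : Finset (Fin n) := insert v {u} with hA
  have h4 := K H hH A
  have h5 := sum_const_compl H (nb H A) 2 (fun v => (h2 v).ge)
  have h6 : (A.card : ℤ) ≤ 2 := by exact_mod_cast card_le_two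
  have h7 : (1 : ℤ) ≤ A.card := by
    have : 0 < A.card := card_pos.mpr ⟨v, mem_insert_self _ _⟩
    exact_mod_cast this
  have h8 : ((nb H A).card : ℤ) ≤ n := by
    have := card_le_univ (nb H A)
    rw [Fintype.card_fin] at this
    exact_mod_cast this
  rw [hγ] at h4
  generalize ((nb H A).card : ℤ) = x at *
  generalize (A.card : ℤ) = a at *
  have hx : 4 ≤ x := by linarith
  rcases (show a = 1 ∨ a = 2 by omega) with rfl | rfl
  · nlinarith
  · nlinarith

theorem sum_bound {n k : ℕ} (hn : 7 ≤ n) (hk : 3 ≤ k) (hkn : k + 2 ≤ n)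
    {G : Fin k → SimpleGraph (Fin n)} (hG : IsFactorization G) :
    ∑ j, (gammaT (G j) : ℤ) ≤ (k - 1) * (n + 1) := by
  classical
  have hn' : (7 : ℤ) ≤ n := by exact_mod_cast hn
  have hk' : (3 : ℤ) ≤ k := by exact_mod_cast hk
  have hkn' : (k : ℤ) + 2 ≤ n := by exact_mod_cast hkn
  by_contra hcon
  push Not at hcon
  set t : Fin k → ℤ := fun j => n + 1 - gammaT (G j) with ht
  have hsum : ∑ j, t j = k * (n + 1) - ∑ j, (gammaT (G j) : ℤ) := by
    rw [ht]
    simp only [sum_sub_distrib, sum_const, card_univ, Fintype.card_fin, nsmul_eq_mul]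
  have hT : ∑ j, t j ≤ n := by
    have : ∑ j, t j < n + 1 := by rw [hsum]; nlinarith
    omega
  have hd0 : ∀ j v, 0 ≤ t j - deg (G j) v := by
    intro j v
    have := deg_le' hG j v
    rw [ht]
    dsimp only
    linarith
  have hdsum : ∀ v, ∑ j, (t j - deg (G j) v) = (∑ j, t j) - (n - 1) := by
    intro v
    rw [sum_sub_distrib, sum_deg' hG]
  have hd1 : ∀ j v, t j - deg (G j) v ≤ 1 := by
    intro j v
    have h1 := single_le_sum (f := fun i => t i - deg (G i) v) (fun i _ => hd0 i v) (mem_univ j)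
    have h2 := hdsum v
    linarith
  have hd2 : ∀ i j, i ≠ j → ∀ v, (t i - deg (G i) v) + (t j - deg (G j) v) ≤ 1 := by
    intro i j hij v
    have h1 := sum_le_sum_of_subset_of_nonneg (f := fun i => t i - deg (G i) v)
      (subset_univ ({i, j} : Finset (Fin k))) (fun l _ _ => hd0 l v)
    rw [sum_pair hij] at h1
    have h2 := hdsum v
    linarith
  have hdeg1 : ∀ j v, 1 ≤ deg (G j) v := fun j v => one_le_deg (G j) (hG.mindeg j) v
  set v0 : Fin n := ⟨0, by omega⟩
  have ht1 : ∀ j, 1 ≤ t j := by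
    intro j
    have h1 := hd0 j v0
    have h2 := hdeg1 j v0
    linarith
  have herase : ∀ j, ((k : ℤ) - 1) ≤ ∑ i ∈ univ.erase j, t i := by
    intro j
    have h1 : ∑ i ∈ univ.erase j, (1 : ℤ) ≤ ∑ i ∈ univ.erase j, t i :=
      sum_le_sum fun i _ => ht1 i
    rw [sum_const, card_erase_of_mem (mem_univ _), card_univ, Fintype.card_fin,
      nsmul_eq_mul] at h1
    push_cast [show 1 ≤ k by omega] at h1
    linarith
  have hsplit : ∀ j, t j + ∑ i ∈ univ.erase j, t i = ∑ i, t i :=
    fun j => add_sum_erase univ t (mem_univ j)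
  have htn : ∀ j, t j ≤ n - k + 1 := by
    intro j
    have h1 := herase j
    have h2 := hsplit j
    linarith
  have hK1 : ∀ j u, ∑ w ∈ univ \ nb (G j) {u}, deg (G j) w ≤
      (n - 1) * (1 + (t j - deg (G j) u)) := by
    intro j u
    have h := K1 (G j) (hG.mindeg j) u
    rw [ht]
    dsimp only
    have e : (2 : ℤ) + n - gammaT (G j) - deg (G j) u =
      1 + (n + 1 - gammaT (G j) - deg (G j) u) := by ring
    rw [e] at h
    exact h
  by_cases hcase : ∀ j, ∃ u, deg (G j) u = t j
  · -- every factor has a full vertex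
    have ht2 : ∀ j, t j ≤ 2 := by
      intro j
      by_contra h3
      push Not at h3
      obtain ⟨u, hu⟩ := hcase j
      have h4 := hK1 j u
      have h5 := sum_const_compl (G j) (nb (G j) {u}) (t j - 1) (fun v => by
        have := hd1 j v
        linarith)
      rw [card_nb_single, hu] at h5
      rw [hu] at h4
      have h6 := htn j
      have h7 : (0 : ℤ) ≤ (t j - 3) * (n - 2 - t j) :=
        mul_nonneg (by linarith) (by linarith)
      nlinarith
    have hM : ∀ j, ∑ v, deg (G j) v ≤ n + 3 * (t j - 1) := by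
      intro j
      obtain ⟨u, hu⟩ := hcase j
      have h1 := sum_le_full hG j u hu (t j) (fun v => by have := hd0 j v; linarith)
      have h2 : (n : ℤ) + 1 - gammaT (G j) = t j := rfl
      rw [h2] at h1
      have h3 := ht1 j
      have h4 := ht2 j
      rcases (show t j = 1 ∨ t j = 2 by omega) with h5 | h5
      · rw [h5] at h1 ⊢; linarith
      · rw [h5] at h1 ⊢; linarith
    have htot : ∑ j, ∑ v, deg (G j) v = n * (n - 1) := by
      rw [sum_comm]
      simp_rw [sum_deg' hG]
      rw [sum_const, card_univ, Fintype.card_fin, nsmul_eq_mul]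
    have h5 : (n : ℤ) * (n - 1) ≤ k * n + 3 * (∑ j, t j - k) := by
      rw [← htot]
      calc ∑ j, ∑ v, deg (G j) v ≤ ∑ j, ((n : ℤ) + 3 * (t j - 1)) :=
            sum_le_sum fun j _ => hM j
        _ = k * n + 3 * (∑ j, t j - k) := by
            rw [sum_add_distrib, ← mul_sum, sum_sub_distrib]
            simp
    have h6 : (0 : ℤ) ≤ (n - 7) * (n - k - 1) := mul_nonneg (by linarith) (by linarith)
    nlinarith
  · -- some factor has no full vertex
    push Not at hcase
    obtain ⟨j0, hj0⟩ := hcase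
    have hr : ∀ v, deg (G j0) v = t j0 - 1 := by
      intro v
      have h1 := hd0 j0 v
      have h2 := hd1 j0 v
      have h3 := hj0 v
      omega
    have hoth : ∀ i, i ≠ j0 → ∀ v, deg (G i) v = t i := by
      intro i hi v
      have h1 := hd2 i j0 hi v
      have h2 := hd0 i v
      have h3 := hr v
      omega
    have hTn : ∑ j, t j = n := by
      have h1 := single_le_sum (f := fun i => t i - deg (G i) v0) (fun i _ => hd0 i v0)
        (mem_univ j0)
      have h2 := hdsum v0
      have h3 := hr v0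
      linarith
    have hone : ∀ i, i ≠ j0 → t i = 1 := by
      intro i hi
      have h1 := hK1 i v0
      have h2 := sum_const_compl (G i) (nb (G i) {v0}) (t i) (fun v => (hoth i hi v).ge)
      rw [card_nb_single, hoth i hi v0] at h2
      rw [hoth i hi v0] at h1
      have h3 := ht1 i
      have h4 := htn i
      by_contra h5
      have h6 : 2 ≤ t i := by omega
      have h7 : (0 : ℤ) < (t i - 1) * (n - 1 - t i) := mul_pos (by linarith) (by linarith)
      nlinarith
    have htj : t j0 = n - k + 1 := by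
      have h1 : ∑ i ∈ univ.erase j0, t i = (k : ℤ) - 1 := by
        rw [sum_congr rfl fun i hi => hone i (mem_erase.mp hi).1, sum_const,
          card_erase_of_mem (mem_univ _), card_univ, Fintype.card_fin, nsmul_eq_mul]
        push_cast [show 1 ≤ k by omega]
        ring
      have h2 := hsplit j0
      linarith
    have h1 := hK1 j0 v0
    have h2 := sum_const_compl (G j0) (nb (G j0) {v0}) (t j0 - 1) (fun v => (hr v).ge)
    rw [card_nb_single, hr v0] at h2
    rw [hr v0] at h1
    rcases (show (n : ℤ) - k = 2 ∨ 3 ≤ (n : ℤ) - k by omega) with hr2 | hr3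
    · apply two_regular hn (G j0) (hG.mindeg j0)
      · intro v
        rw [hr v, htj]
        linarith
      · have h3 : (n : ℤ) + 1 - gammaT (G j0) = t j0 := rfl
        linarith
    · have h3 : (0 : ℤ) ≤ ((n : ℤ) - k - 3) * (k - 3) := mul_nonneg (by linarith) (by linarith)
      rw [htj] at h1 h2
      have h7 : (n : ℤ) = 7 := by nlinarith
      have hnt : Nontrivial (Fin k) := Fin.nontrivial_iff_two_le.mpr (by omega)
      have hex : ∃ i : Fin k, i ≠ j0 := exists_ne j0
      obtain ⟨i, hi⟩ := hex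
      have h8 := even_sum (G i)
      have h9 : ∑ v, deg (G i) v = 7 := by
        rw [sum_congr rfl fun v _ => (hoth i hi v).trans (hone i hi), sum_const, card_univ,
          Fintype.card_fin, nsmul_eq_mul, h7]
        norm_num
      rw [h9] at h8
      revert h8
      decide

theorem amgm_strict {k : ℕ} (hk : 0 < k) (z : Fin k → ℝ) (hz : ∀ i, 0 ≤ z i)
    (hne : ∃ i j, z i ≠ z j) : ∏ i, z i < ((∑ i, z i) / k) ^ k := by
  have hk0 : (k : ℝ) ≠ 0 := by exact_mod_cast hk.ne'
  obtain ⟨i, j, hij⟩ := hne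
  have h1 := (Real.geom_mean_lt_arith_mean_weighted_iff_of_pos (univ : Finset (Fin k))
    (fun _ => (k : ℝ)⁻¹) z (fun i _ => by positivity) (by
      rw [sum_const, card_univ, Fintype.card_fin, nsmul_eq_mul]
      exact mul_inv_cancel₀ hk0) (fun i _ => hz i)).mpr ⟨i, mem_univ _, j, mem_univ _, hij⟩
  have h2 : ∑ i, (k : ℝ)⁻¹ * z i = (∑ i, z i) / k := by
    rw [← mul_sum, div_eq_inv_mul]
  rw [h2] at h1
  have h3 : (∏ i, z i ^ ((k : ℝ)⁻¹)) ^ k = ∏ i, z i := by
    rw [← prod_pow]
    apply prod_congr rfl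
    intro i _
    exact Real.rpow_inv_natCast_pow (hz i) hk.ne'
  have h4 : (0 : ℝ) ≤ ∏ i, z i ^ ((k : ℝ)⁻¹) :=
    prod_nonneg fun i _ => Real.rpow_nonneg (hz i) _
  calc ∏ i, z i = (∏ i, z i ^ ((k : ℝ)⁻¹)) ^ k := h3.symm
    _ < ((∑ i, z i) / k) ^ k := pow_lt_pow_left₀ h1 h4 hk.ne'

theorem prod_lt {n k : ℕ} (hn : 7 ≤ n) (hk : 3 ≤ k) (hkn : k + 2 ≤ n)
    {G : Fin k → SimpleGraph (Fin n)} (hG : IsFactorization G) :
    ((∏ j, gammaT (G j) : ℕ) : ℝ) < ((1 - 1 / (k : ℝ)) * (n + 1)) ^ k := by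
  have hk0 : (0 : ℝ) < k := by exact_mod_cast (by omega : 0 < k)
  have hb := sum_bound hn hk hkn hG
  have hb' : (∑ j, (gammaT (G j) : ℝ)) ≤ ((k : ℝ) - 1) * (n + 1) := by
    have : ((∑ j, (gammaT (G j) : ℤ) : ℤ) : ℝ) ≤ (((k - 1) * (n + 1) : ℤ) : ℝ) := by
      exact_mod_cast hb
    push_cast at this
    exact this
  have hC : (1 - 1 / (k : ℝ)) * (n + 1) = (((k : ℝ) - 1) * (n + 1)) / k := by
    field_simp
  rw [hC]
  have hpos : (0 : ℝ) ≤ (∑ j, (gammaT (G j) : ℝ)) / k := by positivity
  push_cast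
  by_cases hall : ∀ i j, gammaT (G i) = gammaT (G j)
  · have hlt : ∑ j, (gammaT (G j) : ℤ) < (k - 1) * (n + 1) := by
      refine lt_of_le_of_ne hb fun heq => ?_
      have hj : ∀ j, gammaT (G j) = gammaT (G ⟨0, by omega⟩) := fun j => hall _ _
      set g := gammaT (G ⟨0, by omega⟩) with hg
      rw [sum_congr rfl fun j _ => by rw [hj j], sum_const, card_univ, Fintype.card_fin,
        nsmul_eq_mul] at heq
      exact no_equal hn hk hkn hG ((n : ℤ) + 1 - g) (fun j => by rw [hj j]) (by linarith)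
    have hlt' : (∑ j, (gammaT (G j) : ℝ)) < ((k : ℝ) - 1) * (n + 1) := by
      have : ((∑ j, (gammaT (G j) : ℤ) : ℤ) : ℝ) < (((k - 1) * (n + 1) : ℤ) : ℝ) := by
        exact_mod_cast hlt
      push_cast at this
      exact this
    calc ∏ j, (gammaT (G j) : ℝ) ≤ ((∑ j, (gammaT (G j) : ℝ)) / k) ^ k :=
          amgm (by omega) _ fun j => by positivity
      _ < ((((k : ℝ) - 1) * (n + 1)) / k) ^ k :=
          pow_lt_pow_left₀ (div_lt_div_of_pos_right hlt' hk0) hpos (by omega)
  · push Not at hall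
    obtain ⟨i, j, hij⟩ := hall
    calc ∏ j, (gammaT (G j) : ℝ) < ((∑ j, (gammaT (G j) : ℝ)) / k) ^ k :=
          amgm_strict (by omega) _ (fun j => by positivity) ⟨i, j, by exact_mod_cast hij⟩
      _ ≤ ((((k : ℝ) - 1) * (n + 1)) / k) ^ k :=
          pow_le_pow_left₀ hpos (div_le_div_of_nonneg_right hb' hk0.le) k

/-- **The known upper bound for `P(n,k)` is never attained.** -/
theorem result (n k : ℕ) (hn : 7 ≤ n) (hk : 3 ≤ k) (hkn : k + 2 ≤ n) :
    (P n k : ℝ) < ((1 - 1 / (k : ℝ)) * (n + 1)) ^ k := by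
  by_cases hne : {p : ℕ | ∃ G : Fin k → SimpleGraph (Fin n),
    IsFactorization G ∧ p = ∏ j, gammaT (G j)}.Nonempty
  · have hbd : BddAbove {p : ℕ | ∃ G : Fin k → SimpleGraph (Fin n),
        IsFactorization G ∧ p = ∏ j, gammaT (G j)} := by
      refine ⟨⌈((1 - 1 / (k : ℝ)) * (n + 1)) ^ k⌉₊, ?_⟩
      rintro p ⟨G, hG, rfl⟩
      have := (prod_lt hn hk hkn hG).le.trans (Nat.le_ceil _)
      exact_mod_cast this
    obtain ⟨G, hG, hp⟩ := Nat.sSup_mem hne hbd
    have h1 : P n k = ∏ j, gammaT (G j) := hp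
    rw [h1]
    exact prod_lt hn hk hkn hG
  · have h0 : P n k = 0 := by
      unfold P
      rw [Set.not_nonempty_iff_eq_empty.mp hne]
      simp
    rw [h0]
    have h1 : (3 : ℝ) ≤ k := by exact_mod_cast hk
    have h2 : (0 : ℝ) < 1 - 1 / (k : ℝ) := by
      rw [sub_pos, div_lt_one (by linarith)]
      linarith
    push_cast
    positivity

end Pool.Agent.Results.MP_1ce445_co.NeverAttained
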